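import Pool.Agent.helper63.CX.CU

/-!
# CX project, module CS: the cube is a simple polytope
-/

open Set Filter Topology

namespace Pool.Agent.helper78.CX

section Cube
variable {X : Type*} [Fintype X]

theorem CS_bounded : Bornology.IsBounded (cube X) := by
  rw [Metric.isBounded_iff_subset_closedBall (0 : EuclideanSpace ℝ X)]
  refine ⟨Real.sqrt (Fintype.card X), fun x hx => ?_⟩
  rw [mem_closedBall_zero_iff, EuclideanSpace.norm_eq]
  apply Real.sqrt_le_sqrt
  calc ∑ i, ‖x i‖ ^ 2 ≤ ∑ _i : X, (1 : ℝ) := Finset.sum_le_sum fun i _ => by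
        rw [Real.norm_eq_abs, sq_abs]
        have := hx i
        nlinarith [this.1, this.2]
    _ = Fintype.card X := by simp

theorem CS_polytope : IsPolytope (cube X) := by
  rw [CU_cube_eq]
  refine hp_polytope _ _ ?_
  rw [← CU_cube_eq]
  exact CS_bounded

theorem CS_interior : (interior (cube X)).Nonempty := by
  have hcont : ∀ j : X, Continuous fun y : EuclideanSpace ℝ X => y j := fun j =>
    (EuclideanSpace.proj (𝕜 := ℝ) j).continuous
  refine ⟨WithLp.toLp 2 fun _ => 1 / 2, ?_⟩
  rw [mem_interior]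
  refine ⟨⋂ j : X, {y | 0 < y j ∧ y j < 1}, ?_, ?_, ?_⟩
  · intro y hy i
    have := mem_iInter.1 hy i
    exact ⟨this.1.le, this.2.le⟩
  · refine isOpen_iInter_of_finite fun j => ?_
    exact (isOpen_lt continuous_const (hcont j)).inter (isOpen_lt (hcont j) continuous_const)
  · refine mem_iInter.2 fun j => ?_
    constructor <;> norm_num

/-- changing one coordinate -/
noncomputable def CS_upd [DecidableEq X] (x : EuclideanSpace ℝ X) (i : X) (t : ℝ) :
    EuclideanSpace ℝ X := x + (t - x i) • EuclideanSpace.single i 1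

theorem CS_upd_self [DecidableEq X] (x : EuclideanSpace ℝ X) (i : X) (t : ℝ) :
    CS_upd x i t i = t := by
  simp [CS_upd]

theorem CS_upd_ne [DecidableEq X] (x : EuclideanSpace ℝ X) (i j : X) (h : j ≠ i) (t : ℝ) :
    CS_upd x i t j = x j := by
  simp [CS_upd, h]

theorem CS_upd_mem [DecidableEq X] {x : EuclideanSpace ℝ X} (hx : x ∈ cube X) (i : X) {t : ℝ}
    (h0 : 0 ≤ t) (h1 : t ≤ 1) : CS_upd x i t ∈ cube X := by
  intro j
  by_cases h : j = i
  · subst h; rw [CS_upd_self]; exact ⟨h0, h1⟩
  · rw [CS_upd_ne x i j h]; exact hx j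

/-- every proper nonempty face lies in one of the faces `CF i b` -/
theorem CS_face_subset (F : Set (EuclideanSpace ℝ X)) (hF : F ∈ bdComplex (cube X))
    (hne : F.Nonempty) : ∃ i b, F ⊆ CF i b := by
  classical
  obtain ⟨hexp, hP⟩ := hF
  obtain ⟨l, hl⟩ := hexp hne
  have hex : ∃ i : X, l (EuclideanSpace.single i 1) ≠ 0 := by
    by_contra hcon
    push Not at hcon
    have hl0 : ∀ x, l x = 0 := by
      intro x
      have hx : x = ∑ i, x i • EuclideanSpace.single i (1 : ℝ) := by
        ext j
        simp [Finset.sum_apply, Pi.single_apply]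
      rw [hx, map_sum]
      exact Finset.sum_eq_zero fun i _ => by rw [map_smul, hcon i, smul_zero]
    apply hP
    rw [hl]
    ext x
    simp [hl0]
  obtain ⟨i, hi⟩ := hex
  refine ⟨i, decide (0 < l (EuclideanSpace.single i 1)), fun x hx => ?_⟩
  rw [hl] at hx
  obtain ⟨hxc, hmax⟩ := hx
  refine ⟨hxc, ?_⟩
  have hu : ∀ t, l (CS_upd x i t) = l x + (t - x i) * l (EuclideanSpace.single i 1) := fun t => by
    rw [CS_upd, map_add, map_smul, smul_eq_mul]
  rcases lt_or_gt_of_ne hi with h | h
  · have h1 := hmax (CS_upd x i 0) (CS_upd_mem hxc i le_rfl zero_le_one)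
    rw [hu] at h1
    have h2 : decide (0 < l (EuclideanSpace.single i 1)) = false := by
      simpa using h.le
    rw [h2]
    have h3 := (hxc i).1
    simp only [bit]
    have : x i ≤ 0 := by
      by_contra hcon
      push Not at hcon
      nlinarith
    simp only [Bool.false_eq_true, if_false]
    linarith
  · have h1 := hmax (CS_upd x i 1) (CS_upd_mem hxc i zero_le_one le_rfl)
    rw [hu] at h1
    have h2 : decide (0 < l (EuclideanSpace.single i 1)) = true := by
      simpa using h
    rw [h2]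
    have h3 := (hxc i).2
    simp only [bit, if_true]
    have : 1 ≤ x i := by
      by_contra hcon
      push Not at hcon
      nlinarith
    linarith

/-- a point of the relative interior -/
theorem CS_ci_nonempty (i : X) (b : Bool) : ∃ x : EuclideanSpace ℝ X, x ∈ CI i b := by
  classical
  refine ⟨WithLp.toLp 2 fun j => if j = i then bit b else 1 / 2, ?_, fun j hj => ?_⟩
  · simp
  · simp only [hj, if_false]
    constructor <;> norm_num

theorem CS_cf_inj {i i' : X} {b b' : Bool} (h : (CF i b : Set (EuclideanSpace ℝ X)) ⊆ CF i' b') :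
    i' = i ∧ b' = b := by
  obtain ⟨x, hx⟩ := CS_ci_nonempty i b
  exact ci_cf i i' b b' x hx (h (CU_ci_subset i b hx))

theorem CS_facet (i : X) (b : Bool) : IsFacet (cube X) (CF i b) := by
  refine ⟨cf_mem i b, fun G hG hsub => ?_⟩
  obtain ⟨x, hx⟩ := CS_ci_nonempty i b
  obtain ⟨i', b', hG'⟩ := CS_face_subset G hG ⟨x, hsub (CU_ci_subset i b hx)⟩
  obtain ⟨rfl, rfl⟩ := CS_cf_inj (hsub.trans hG')
  exact Subset.antisymm hG' hsub

theorem CS_extreme (v : EuclideanSpace ℝ X) (hv : v ∈ (cube X).extremePoints ℝ) (i : X) :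
    v i = 0 ∨ v i = 1 := by
  classical
  by_contra hcon
  push Not at hcon
  have h0 : 0 < v i := lt_of_le_of_ne (hv.1 i).1 (Ne.symm hcon.1)
  have h1 : v i < 1 := lt_of_le_of_ne (hv.1 i).2 hcon.2
  have h2 : v ∈ openSegment ℝ (CS_upd v i 0) (CS_upd v i 1) := by
    refine ⟨1 - v i, v i, by linarith, h0, by ring, ?_⟩
    ext j
    by_cases h : j = i
    · subst h
      simp [CS_upd_self]
    · simp only [PiLp.add_apply, PiLp.smul_apply, CS_upd_ne v i j h, smul_eq_mul]
      ring
  have h3 := hv.2 (CS_upd_mem hv.1 i le_rfl zero_le_one) (CS_upd_mem hv.1 i zero_le_one le_rfl) h2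
  have h4 := congrArg (fun x : EuclideanSpace ℝ X => x i) h3
  simp only [CS_upd_self] at h4
  linarith

/-! ## module cx:CS (the cube is simple) -/

theorem cube_simple (d : ℕ) : IsSimplePolytope d (cube (Fin d)) := by
  classical
  refine ⟨CS_polytope, CS_interior, fun v hv => ?_⟩
  have hbit : ∀ i, v i = bit (decide (v i = 1)) := fun i => by
    rcases CS_extreme v hv i with h | h <;> simp [h, bit]
  have h1 : {F | IsFacet (cube (Fin d)) F ∧ v ∈ F} =
      range fun i : Fin d => (CF i (decide (v i = 1)) : Set (EuclideanSpace ℝ (Fin d))) := by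
    ext F
    rw [mem_ofPred_eq, mem_range]
    constructor
    · rintro ⟨⟨hF, hmax⟩, hvF⟩
      obtain ⟨i, b, hsub⟩ := CS_face_subset F hF ⟨v, hvF⟩
      have h2 := hmax _ (cf_mem i b) hsub
      refine ⟨i, ?_⟩
      rw [← h2] at hvF ⊢
      have h3 : b = decide (v i = 1) := CU_bit_inj (by rw [← hbit i]; exact hvF.2.symm)
      rw [← h3]
    · rintro ⟨i, rfl⟩
      exact ⟨CS_facet i _, hv.1, hbit i⟩
  rw [h1, ← image_univ, ncard_image_of_injective, ncard_univ, Nat.card_eq_fintype_card,
    Fintype.card_fin]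
  intro i j hij
  have h3 : (CF i (decide (v i = 1)) : Set (EuclideanSpace ℝ (Fin d))) ⊆
      CF j (decide (v j = 1)) := fun x hx => by
    have h4 : (CF i (decide (v i = 1)) : Set (EuclideanSpace ℝ (Fin d))) =
      CF j (decide (v j = 1)) := hij
    rw [← h4]; exact hx
  exact ((CS_cf_inj h3).1).symm

end Cube

end Pool.Agent.helper78.CX
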