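import Pool.Agent.helper22.CX.HA

/-!
# CX project, module CU: the faces of the cube
-/

open Set Filter Topology

namespace Pool.Agent.helper78.CX

section Cube
variable {X : Type*} [Fintype X]

/-- the functionals of the cube -/
noncomputable def CU_L : X × Bool → StrongDual ℝ (EuclideanSpace ℝ X)
  | (i, true) => EuclideanSpace.proj i
  | (i, false) => -EuclideanSpace.proj i

/-- the right-hand sides -/
def CU_b : X × Bool → ℝ
  | (_, true) => 1
  | (_, false) => 0

theorem CU_cube_eq : cube X = HP (CU_L (X := X)) CU_b := by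
  ext x
  simp only [cube, HP, mem_ofPred_eq, Prod.forall, Bool.forall_bool, CU_L, CU_b]
  refine forall_congr' fun i => ?_
  simp

theorem CU_CF_eq (i : X) (b : Bool) : CF i b = HG (CU_L (X := X)) CU_b (i, b) := by
  ext x
  rw [CF, HG, mem_ofPred_eq, mem_ofPred_eq, ← CU_cube_eq]
  refine and_congr_right fun _ => ?_
  cases b <;> simp [CU_L, CU_b, bit]

/-- the centre -/
noncomputable def CU_x0 (X : Type*) [Fintype X] : EuclideanSpace ℝ X :=
  WithLp.toLp 2 fun _ => 1 / 2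

theorem CU_h0 (t : X × Bool) : CU_L t (CU_x0 X) < CU_b t := by
  obtain ⟨i, b⟩ := t
  cases b
  · simp [CU_L, CU_b, CU_x0]
  · simp [CU_L, CU_b, CU_x0]
    norm_num

theorem cf_mem (i : X) (b : Bool) : CF i b ∈ bdComplex (cube X) := by
  rw [CU_cube_eq, CU_CF_eq]
  exact hg_mem_bdComplex _ _ (CU_x0 X) CU_h0 _

theorem cube_bd : ⋃₀ bdComplex (cube X) = ⋃ (i : X) (b : Bool), CF i b := by
  rw [CU_cube_eq, hp_bd _ _ (CU_x0 X) CU_h0, Set.iUnion_prod']
  simp only [CU_CF_eq]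

theorem CU_bit_mem (b : Bool) : 0 ≤ bit b ∧ bit b ≤ 1 := by cases b <;> simp [bit]

theorem CU_ci_subset (i : X) (b : Bool) {x : EuclideanSpace ℝ X} (hx : x ∈ CI i b) :
    x ∈ CF i b := by
  refine ⟨fun j => ?_, hx.1⟩
  by_cases h : j = i
  · subst h
    rw [hx.1]
    exact CU_bit_mem b
  · exact ⟨(hx.2 j h).1.le, (hx.2 j h).2.le⟩

theorem CU_bit_inj {b b' : Bool} (h : bit b = bit b') : b = b' := by
  revert h
  cases b <;> cases b' <;> simp [bit]

theorem ci_cf (i i' : X) (b b' : Bool) (x : EuclideanSpace ℝ X) (hx : x ∈ CI i b)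
    (hx' : x ∈ CF i' b') : i' = i ∧ b' = b := by
  have h1 : i' = i := by
    by_contra hne
    have h2 := hx.2 i' hne
    rw [hx'.2] at h2
    cases b' <;> simp [bit] at h2
  subst h1
  refine ⟨rfl, CU_bit_inj ?_⟩
  rw [← hx'.2, hx.1]

/-- the relative interior of a facet is dense in the facet -/
theorem ci_dense (i : X) (b : Bool) (U : Set (EuclideanSpace ℝ X)) (hU : IsOpen U)
    (h : (U ∩ CF i b).Nonempty) : (U ∩ CI i b).Nonempty := by
  classical
  obtain ⟨x, hxU, hx⟩ := h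
  let m : EuclideanSpace ℝ X := WithLp.toLp 2 fun j => if j = i then bit b else 1 / 2
  have hc : Continuous fun r : ℝ => x + r • (m - x) := by fun_prop
  have h1 : ∀ᶠ r : ℝ in 𝓝 0, x + r • (m - x) ∈ U := by
    have := hc.continuousAt.preimage_mem_nhds (x := (0 : ℝ)) (t := U)
      (hU.mem_nhds (by simpa using hxU))
    exact this
  have h2 : ∀ᶠ r : ℝ in 𝓝[>] 0, x + r • (m - x) ∈ U := h1.filter_mono nhdsWithin_le_nhds
  have h3 : ∀ᶠ r : ℝ in 𝓝[>] 0, r < 1 := by
    have : ∀ᶠ r : ℝ in 𝓝 0, r < 1 := Iio_mem_nhds (by norm_num)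
    exact this.filter_mono nhdsWithin_le_nhds
  have h4 : ∀ᶠ r : ℝ in 𝓝[>] 0, 0 < r := self_mem_nhdsWithin
  obtain ⟨r, ⟨hrU, hr1⟩, hr0⟩ := ((h2.and h3).and h4).exists
  refine ⟨_, hrU, ?_, fun j hj => ?_⟩
  · have h5 : (x + r • (m - x)) i = x i + r * (bit b - x i) := by
      simp [m]
    rw [h5, hx.2]; ring
  · have h5 : (x + r • (m - x)) j = x j + r * (1 / 2 - x j) := by
      simp [m, hj]
    rw [h5]
    have h6 := hx.1 j
    constructor <;> nlinarith [h6.1, h6.2]

/-- the relative interior of a facet is open in the boundary -/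
theorem ci_open (i : X) (b : Bool) (x : EuclideanSpace ℝ X) (hx : x ∈ CI i b) :
    ∃ U, IsOpen U ∧ x ∈ U ∧ ∀ y ∈ U, y ∈ ⋃₀ bdComplex (cube X) → y ∈ CI i b := by
  classical
  have hcont : ∀ j : X, Continuous fun y : EuclideanSpace ℝ X => y j := fun j =>
    (EuclideanSpace.proj (𝕜 := ℝ) j).continuous
  refine ⟨{y | |y i - bit b| < 1} ∩ ⋂ j : {j // j ≠ i}, {y | 0 < y j.1 ∧ y j.1 < 1}, ?_, ?_, ?_⟩
  · refine IsOpen.inter ?_ (isOpen_iInter_of_finite fun j => ?_)
    · exact isOpen_lt (((hcont i).sub continuous_const).abs) continuous_const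
    · exact (isOpen_lt continuous_const (hcont j.1)).inter (isOpen_lt (hcont j.1) continuous_const)
  · refine ⟨?_, mem_iInter.2 fun j => hx.2 j.1 j.2⟩
    rw [mem_ofPred_eq, hx.1]
    simp
  · rintro y ⟨hy1, hy2⟩ hy
    rw [mem_ofPred_eq] at hy1
    have hy3 : ∀ j, j ≠ i → 0 < y j ∧ y j < 1 := fun j hj => mem_iInter.1 hy2 ⟨j, hj⟩
    rw [cube_bd, mem_iUnion] at hy
    obtain ⟨i', hy⟩ := hy
    rw [mem_iUnion] at hy
    obtain ⟨b', hy⟩ := hy
    have h1 : i' = i := by
      by_contra hne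
      have h2 := hy3 i' hne
      rw [hy.2] at h2
      cases b' <;> simp [bit] at h2
    subst h1
    refine ⟨?_, hy3⟩
    rw [hy.2] at hy1 ⊢
    revert hy1
    cases b <;> cases b' <;> simp [bit]

end Cube

end Pool.Agent.helper78.CX
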